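import Mathlib

set_option autoImplicit false

namespace Pool.Agent.Lead.KK

/-- the function `Φ` of the problem; the index `n` stands for `n + 1` -/
noncomputable def Phi (t : ℝ) : ℝ :=
  2 * ∑' n : ℕ, (2 * Real.pi ^ 2 * ((n : ℝ) + 1) ^ 4 * Real.exp (9 * t / 2) -
    3 * Real.pi * ((n : ℝ) + 1) ^ 2 * Real.exp (5 * t / 2)) *
      Real.exp (-(Real.pi * ((n : ℝ) + 1) ^ 2 * Real.exp (2 * t)))

/-- the deformed Xi function -/
noncomputable def Xi (lam : ℝ) (z : ℂ) : ℂ :=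
  ∫ t : ℝ, (Phi t : ℂ) * Complex.exp ((lam : ℂ) * (t : ℂ) ^ 2) * Complex.exp (Complex.I * z * (t : ℂ))

/-- the number of zeros of `f` in the set `A`, counted with multiplicity -/
noncomputable def zeroCount (f : ℂ → ℂ) (A : Set ℂ) : ENNReal :=
  ∑' z : A, (analyticOrderAt f (z : ℂ) : ENNReal)

end Pool.Agent.Lead.KK
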