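import Pool.Agent.Lead.KK.Defs
import Pool.Agent.Lead.Sel.Spec

/-
Interface statements for the project KK: zeros of the deformed Xi function at lambda = -1/4.
Every `def X : Prop` below is one work package.
-/

set_option autoImplicit false
open Complex MeasureTheory Set

namespace Pool.Agent.Lead.KK

/-- the gamma factor -/
noncomputable def gam (s : ℂ) : ℂ := (s - 1) * (Real.pi : ℂ) ^ (-(s / 2)) * Gamma (s / 2 + 1)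

/-- the damped zeta function -/
noncomputable def Z (w : ℂ) : ℂ := LSeries (fun n => (Real.exp (-(Real.log n ^ 2 / 4)) : ℂ)) w

/-- the deformed function is entire and is a Gaussian average of gam * zeta -/
def REP : Prop :=
  Differentiable ℂ (Xi (-1 / 4)) ∧
  ∀ σ : ℝ, 2 ≤ σ → ∀ z : ℂ,
    Integrable (fun τ : ℝ => gam (σ + τ * I) * riemannZeta (σ + τ * I) *
      Complex.exp ((σ + τ * I - (1 / 2 + I * z)) ^ 2)) ∧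
    Xi (-1 / 4) z = ((Real.sqrt Real.pi)⁻¹ : ℝ) * ∫ τ : ℝ, gam (σ + τ * I) * riemannZeta (σ + τ * I) *
      Complex.exp ((σ + τ * I - (1 / 2 + I * z)) ^ 2)

/-- the damped zeta function is a Gaussian average of zeta -/
def ZREP : Prop :=
  (∀ σ : ℝ, 2 ≤ σ → ∀ w : ℂ,
    Integrable (fun τ : ℝ => riemannZeta (σ + τ * I) * Complex.exp ((σ + τ * I - w) ^ 2)) ∧
    Z w = ((Real.sqrt Real.pi)⁻¹ : ℝ) *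
      ∫ τ : ℝ, riemannZeta (σ + τ * I) * Complex.exp ((σ + τ * I - w) ^ 2)) ∧
  (∀ s : ℂ, 2 ≤ s.re → ‖riemannZeta s‖ ≤ 2) ∧
  (∀ w : ℂ, 3 ≤ w.re → ‖Z w - 1‖ ≤ 1 / 4) ∧
  (∀ w : ℂ, ‖Z w‖ ≤ 2 * Real.exp (max (2 - w.re) 0 ^ 2))

/-- the gamma factor is locally an exponential -/
def GAM : Prop :=
  ∃ C T0 : ℝ, 0 < C ∧ ∀ τ0 : ℝ, T0 ≤ |τ0| → ∃ κ : ℂ,
    |κ.re - Real.log |τ0| / 2| ≤ C ∧ |κ.im| ≤ C ∧ gam (2 + τ0 * I) ≠ 0 ∧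
    ∀ h : ℂ, 0 ≤ h.re → h.re ≤ |τ0| ^ (1 / 3 : ℝ) →
      ‖gam (2 + τ0 * I + h) / (gam (2 + τ0 * I) * Complex.exp (κ * h))‖
        ≤ C * Real.exp (h.im ^ 2 / 4) ∧
      (|h.im| ≤ |τ0| ^ (1 / 3 : ℝ) →
        ‖gam (2 + τ0 * I + h) / (gam (2 + τ0 * I) * Complex.exp (κ * h)) - 1‖
          ≤ C * |τ0| ^ (-(1 / 3) : ℝ))

/-- local approximation of the deformed function by the damped zeta function -/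
def APX : Prop :=
  ∃ C T0 : ℝ, 0 < C ∧ ∀ τ0 : ℝ, T0 ≤ |τ0| → ∃ κ c0 : ℂ,
    |κ.re - Real.log |τ0| / 2| ≤ C ∧ |κ.im| ≤ C ∧
    ∀ z w : ℂ, w = 1 / 2 + I * z - κ / 2 → w.re ≤ |τ0| ^ (1 / 4 : ℝ) →
      |w.im - τ0| ≤ |τ0| ^ (1 / 4 : ℝ) →
      ‖Xi (-1 / 4) z * Complex.exp (c0 - κ * w) - Z w‖
        ≤ C * |τ0| ^ (-(1 / 3) : ℝ) * Real.exp (max (2 - w.re) 0 ^ 2)

/-- upper bound for the number of zeros in a disc -/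
def JEN : Prop :=
  ∀ (F : ℂ → ℂ) (c : ℂ) (r B : ℝ), Differentiable ℂ F → 0 < r → F c ≠ 0 →
    (∀ z : ℂ, ‖z - c‖ ≤ 3 * r → ‖F z‖ ≤ B) →
    ∀ S : Finset ℂ, (∀ z ∈ S, ‖z - c‖ ≤ r) →
      ∑ z ∈ S, (analyticOrderNatAt F z : ℝ) ≤ 2 * Real.log (B / ‖F c‖)

/-- lower bound for the number of zeros in a disc -/
def ZER : Prop :=
  ∀ η : ℝ, 0 < η → ∃ δ M0 : ℝ, 0 < δ ∧ ∀ (F : ℂ → ℂ) (c : ℂ) (R M : ℝ), Differentiable ℂ F →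
    0 < R → M0 ≤ M → (∀ z : ℂ, ‖z - c‖ ≤ 4 * R → ‖F z‖ ≤ Real.exp M) →
    (∀ z : ℂ, ‖z - c‖ ≤ R → ‖F z - 1‖ ≤ 1 / 2) →
    (∃ z : ℂ, ‖z - c‖ ≤ 2 * R ∧ Real.exp (η * M) ≤ ‖F z‖) →
    ∃ S : Finset ℂ, (∀ z ∈ S, ‖z - c‖ ≤ 3 * R) ∧ δ * M ≤ ∑ z ∈ S, (analyticOrderNatAt F z : ℝ)

/-- many well spaced large values of the damped zeta function -/
def PRB : Prop :=
  ∃ ε X0 : ℝ, 0 < ε ∧ ε ≤ 1 ∧ ∀ X : ℝ, X0 ≤ X → ∃ A : Finset ℝ,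
    ε * X / Real.log X ≤ (A.card : ℝ) ∧
    (∀ τ ∈ A, ε * X ≤ |τ| ∧ |τ| ≤ X / ε ∧
      Real.exp ((Real.log X / 20) ^ 2) ≤ ‖Z (((-(Real.log X / 20) : ℝ) : ℂ) + τ * I)‖) ∧
    ∀ τ ∈ A, ∀ τ' ∈ A, τ ≠ τ' → Real.log X ≤ |τ - τ'|

/-- many non-real zeros -/
def LOW : Prop :=
  ∃ c T0 : ℝ, 0 < c ∧ ∀ T : ℝ, T0 ≤ T → ∃ S : Finset ℂ, (∀ z ∈ S, |z.re| ≤ T ∧ z.im ≠ 0) ∧
    c * T * Real.log T ≤ ∑ z ∈ S, (analyticOrderNatAt (Xi (-1 / 4)) z : ℝ)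

/-- few real zeros -/
def UPP : Prop :=
  (∃ z : ℂ, Xi (-1 / 4) z ≠ 0) ∧
  ∃ C T0 : ℝ, 0 < C ∧ ∀ T : ℝ, T0 ≤ T → ∀ S : Finset ℂ, (∀ z ∈ S, |z.re| ≤ T ∧ z.im = 0) →
    ∑ z ∈ S, (analyticOrderNatAt (Xi (-1 / 4)) z : ℝ) ≤ C * T * Real.log T

/-- the final statement -/
def FIN : Prop :=
  ∃ lam : ℝ, lam < 0 ∧ Differentiable ℂ (Xi lam) ∧
    (∃ c C : ℝ, 0 < c ∧ 0 < C ∧ ∀ᶠ T : ℝ in Filter.atTop,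
      ENNReal.ofReal (c * T * Real.log T) ≤ zeroCount (Xi lam) {z | |z.re| ≤ T ∧ z.im ≠ 0} ∧
      zeroCount (Xi lam) {z | z.im = 0 ∧ ‖z‖ ≤ T} ≤ ENNReal.ofReal (C * T * Real.log T)) ∧
    ¬ Filter.Tendsto (fun T : ℝ => zeroCount (Xi lam) {z | z.im = 0 ∧ ‖z‖ ≤ T} /
      zeroCount (Xi lam) {z | |z.re| ≤ T}) Filter.atTop (nhds 1)

end Pool.Agent.Lead.KK
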